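import Pool.Agent.RMC68.Beyond

/-!
# The asymptotic coset leader weight distribution of `R(1,m)`

Let `λ = λ_{m,i} = 2^(m+1) (C(2^m,0) + ... + C(2^m,i)) / 2^(2^m)` be the mean number of affine
functions at distance at most `i` from a random Boolean function of `m` variables. As long as
`λ` is at most `2^⌊m/4⌋ / (2000000 m^2) - 1`, the number `α_i` of cosets of weight `i` is
`C(2^m, i) exp (-λ + θ)`, and the number of cosets of weight larger than `i` is
`2^(2^m - m - 1) exp (-λ + θ')`, with explicit bounds for `θ` and `θ'`. Beyond that the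
proportion of cosets of weight larger than `i` is at most
`3 exp (- 2^⌊m/4⌋ / (100000000 m^2))`. The definitions of the code, of the weight of a coset and
of `leaderCount` are in `Pool.Agent.RMC.Defs`.
-/

set_option autoImplicit false

open Pool.Agent.RMC

namespace Pool.Agent.Results.MP_7db6b7_lc.AsymptoticLaw

/-- `λ_{m,i}`: the mean number of affine functions of `m` variables at distance at most `i` from a
uniformly random Boolean function of `m` variables. -/
noncomputable def farMean (m i : ℕ) : ℝ :=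
  2 ^ (m + 1) * (∑ l ∈ Finset.range (i + 1), ((2 ^ m).choose l : ℝ)) / 2 ^ (2 ^ m)

/-- `T_i`: the number of cosets of `R(1,m)` of weight larger than `i`. -/
noncomputable def heavyCount (m i : ℕ) : ℕ :=
  Nat.card {q : (Vec m → ZMod 2) ⧸ reedMuller m // i < leaderWeight q}

/-- For all `m ≥ 1` and all `i`, with `λ = farMean m i` and `K = 2000000 m^2`:
if `K (1 + λ) ≤ 2^⌊m/4⌋` then `α_i = C(2^m, i) exp (-λ + θ)` and
`T_i = 2^(2^m - m - 1) exp (-λ + θ')` with `|θ|, |θ'| ≤ K (1 + λ)^2 / 2^⌊m/4⌋`;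
otherwise `T_i ≤ 3 * 2^(2^m - m - 1) exp (- 2^⌊m/4⌋ / (100000000 m^2))`. -/
theorem result :
    ∀ m : ℕ, 1 ≤ m → ∀ i : ℕ,
      (2000000 * (m : ℝ) ^ 2 * (1 + farMean m i) ≤ 2 ^ (m / 4) →
        (∃ θ : ℝ, |θ| ≤ 2000000 * (m : ℝ) ^ 2 * (1 + farMean m i) ^ 2 / 2 ^ (m / 4) ∧
          (leaderCount m i : ℝ) = ((2 ^ m).choose i : ℝ) * Real.exp (-farMean m i + θ)) ∧
        (∃ θ : ℝ, |θ| ≤ 2000000 * (m : ℝ) ^ 2 * (1 + farMean m i) ^ 2 / 2 ^ (m / 4) ∧
          (heavyCount m i : ℝ) = 2 ^ (2 ^ m - m - 1) * Real.exp (-farMean m i + θ))) ∧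
      (2 ^ (m / 4) < 2000000 * (m : ℝ) ^ 2 * (1 + farMean m i) →
        (heavyCount m i : ℝ) ≤
          3 * 2 ^ (2 ^ m - m - 1) * Real.exp (-(2 ^ (m / 4) / (100000000 * (m : ℝ) ^ 2)))) := by
  intro m hm i
  have h : farMean m i = Pool.Agent.RMC68.lamN (2 ^ m) i := by
    rw [farMean, Pool.Agent.RMC68.lamN, pow_succ]
    push_cast
    ring
  rw [h]
  exact ⟨Pool.Agent.RMC68.law_rel m hm i, Pool.Agent.RMC68.law_beyond m hm i⟩

end Pool.Agent.Results.MP_7db6b7_lc.AsymptoticLaw
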