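import Mathlib
import Pool.Agent.RMC.Theta

/-!
# Coset leader weight distribution of `R(1,m)` in the linear range

For every `r` and `m`, and every `i < (1 - θ_{r+1}) 2^(m-1)` with `θ_k = C(k, ⌊k/2⌋) / 2^k`,
an exact formula for the number of cosets of the first-order Reed-Muller code `R(1,m)` of weight
at most `i`. The number of dimensions `d ≤ r` in the formula does not depend on `m`, and, as
`θ_k → 0`, the formula with fixed `r = r(ε)` covers all `m` and all `i < (1 - ε) 2^(m-1)`.
The definitions are in `Pool.Agent.RMC.Defs`.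
-/

set_option autoImplicit false

open Finset Pool.Agent.RMC

namespace Pool.Agent.Results.MP_7db6b7_lc.LinearRange

/-- For all `m`, `r` and `i < (1 - θ_{r+1}) 2^(m-1)` the number of cosets of `R(1,m)` of weight
at most `i` equals `flatSum m r i`; and for every `ε > 0` there is one `r` such that this holds
for all `m` and all `i < (1 - ε) 2^(m-1)`. -/
theorem result :
    (∀ m r i : ℕ, (i : ℚ) < (1 - theta (r + 1)) * (2 ^ m / 2) →
      ∑ j ∈ range (i + 1), (leaderCount m j : ℚ) = flatSum m r i) ∧
    (∀ ε : ℚ, 0 < ε → ∃ r : ℕ, ∀ m i : ℕ, (i : ℚ) < (1 - ε) * (2 ^ m / 2) →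
      ∑ j ∈ range (i + 1), (leaderCount m j : ℚ) = flatSum m r i) :=
  ⟨formula, formula_eps⟩

end Pool.Agent.Results.MP_7db6b7_lc.LinearRange
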