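import Pool.Agent.RMC.Defs
import Pool.Agent.RMC53.Top

/-!
# Many cosets of `R(1,m)` of each weight a little below the covering radius

The definitions of the code, of the weight of a coset and of `leaderCount` are in
`Pool.Agent.RMC.Defs`.
-/

set_option autoImplicit false

open Pool.Agent.RMC

namespace Pool.Agent.Results.MP_7db6b7_lc.NearRadius

/-- For every `δ` in `(0, 1]` there is `m₁` such that, with `N = 2^m`, for all `m ≥ m₁` and all
`i ≥ N / 4` with `i + δ √N ≤ j` for some `j` with `α_j ≠ 0` (that is, `i` is at most the covering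
radius minus `δ √N`) at least `2^(δ^2 N / 60)` cosets of `R(1,m)` have weight `i`. -/
theorem result :
    ∀ δ : ℝ, 0 < δ → δ ≤ 1 → ∃ m₁ : ℕ, ∀ m : ℕ, m₁ ≤ m → ∀ i j : ℕ, leaderCount m j ≠ 0 →
      2 ^ m ≤ 4 * i → (i : ℝ) + δ * √((2 : ℝ) ^ m) ≤ j →
        (2 : ℝ) ^ (δ ^ 2 * 2 ^ m / 60) ≤ leaderCount m i :=
  Pool.Agent.RMC53.near_top

end Pool.Agent.Results.MP_7db6b7_lc.NearRadius
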