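import Pool.Agent.RMC53.Main

/-!
# Uniform two-sided bounds for the coset leader weight distribution of `R(1,m)`

Let `N = 2^m`, let `α_i` be the number of cosets of `R(1,m)` of weight `i`, and let `Λ = Λ_{m,i}`
be the mean number of nonconstant affine functions that are closer than the zero function to the
indicator function of a uniformly random set of `i` points of `F₂^m`, those at the same distance
counting one half. For all `m ≥ 2` and all `i` with `α_i ≠ 0` the ratio `α_i / C(N,i)` lies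
between `1 - Λ` and `1 / (1 + Λ)`, and `- log (α_i / C(N,i))` is `Λ` up to a factor polynomial in
`K = (N - 2 i) / √N`. The definitions of the code, of the weight of a coset and of `leaderCount`
are in `Pool.Agent.RMC.Defs`.
-/

set_option autoImplicit false

open Finset Pool.Agent.RMC

namespace Pool.Agent.Results.MP_7db6b7_lc.UniformBounds

/-- `w_m(x)`: it is `2` if `x > 2^m / 4`, `1` if `x = 2^m / 4` and `0` if `x < 2^m / 4`. -/
noncomputable def wgt (m x : ℕ) : ℝ :=
  if 2 ^ m < 4 * x then 2 else if 2 ^ m = 4 * x then 1 else 0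

/-- `Λ_{m,i} = (2^m - 1) (∑_{x ≤ i} w_m(x) C(2^(m-1), x) C(2^(m-1), i - x)) / C(2^m, i)`. -/
noncomputable def rivals (m i : ℕ) : ℝ :=
  ((2 : ℝ) ^ m - 1) * (∑ x ∈ range (i + 1),
    wgt m x * (((2 ^ (m - 1)).choose x : ℝ) * ((2 ^ (m - 1)).choose (i - x) : ℝ))) /
      ((2 ^ m).choose i : ℝ)

/-- `K_{m,i} = (2^m - 2 i) / √(2^m)`. -/
noncomputable def depth (m i : ℕ) : ℝ := ((2 : ℝ) ^ m - 2 * i) / √((2 : ℝ) ^ m)

/-- For all `m ≥ 2` and all `i` with `α_i ≠ 0`, with `N = 2^m`, `Λ = Λ_{m,i}` and `K = K_{m,i}`: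
`C(N,i) (1 - Λ) ≤ α_i ≤ C(N,i) / (1 + Λ)` and
`C(N,i) exp (- 10^26 (1 + K)^7 Λ) ≤ α_i ≤ C(N,i) exp (- Λ / (10^26 (1 + K)^4))`. -/
theorem result :
    ∀ m i : ℕ, 2 ≤ m → leaderCount m i ≠ 0 →
      ((2 ^ m).choose i : ℝ) * (1 - rivals m i) ≤ leaderCount m i ∧
      (leaderCount m i : ℝ) ≤ ((2 ^ m).choose i : ℝ) / (1 + rivals m i) ∧
      ((2 ^ m).choose i : ℝ) * Real.exp (-(10 ^ 26 * (1 + depth m i) ^ 7 * rivals m i)) ≤
        leaderCount m i ∧
      (leaderCount m i : ℝ) ≤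
        ((2 ^ m).choose i : ℝ) * Real.exp (-(rivals m i / (10 ^ 26 * (1 + depth m i) ^ 4))) := by
  intro m i hm hα
  obtain ⟨M, hM⟩ : ∃ M, 2 ^ m = 4 * M := by
    refine ⟨2 ^ (m - 2), ?_⟩
    rw [show (4 : ℕ) = 2 ^ 2 by norm_num, ← pow_add]
    congr 1
    omega
  have hM1 : 1 ≤ M := by
    rcases Nat.eq_zero_or_pos M with h | h
    · rw [h] at hM
      have : 0 < 2 ^ m := by positivity
      omega
    · exact h
  have hi : i < 2 * M := by
    have := Pool.Agent.RMC53.lt_half hα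
    omega
  have hM2 : 2 ^ (m - 1) = 2 * M := by
    have : 2 ^ m = 2 * 2 ^ (m - 1) := by
      rw [← pow_succ']
      congr 1
      omega
    omega
  have hM0 : (0 : ℝ) < M := by exact_mod_cast hM1
  have h4M : (2 : ℝ) ^ m = 4 * M := by exact_mod_cast hM
  have hL : rivals m i = Pool.Agent.RMC53.Lm m M i := by
    rw [rivals, Pool.Agent.RMC53.Lm, Pool.Agent.RMC53.B_cast, hM2]
    congr 2
    refine Finset.sum_congr rfl fun x _ => ?_
    have hw : wgt m x = (Pool.Agent.RMC53.w2 M x : ℝ) := by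
      rw [wgt, Pool.Agent.RMC53.w2, hM]
      by_cases h1 : M < x
      · rw [if_pos (by omega), if_pos h1]; norm_num
      · rw [if_neg (by omega), if_neg h1]
        by_cases h2 : x = M
        · rw [if_pos (by omega), if_pos h2]; norm_num
        · rw [if_neg (by omega), if_neg h2]; norm_num
    rw [hw, Pool.Agent.RMC53.A]
    push_cast
    rfl
  have hK : depth m i = Pool.Agent.RMC53.KM M i := by
    have hq0 : 0 < √(M : ℝ) := Real.sqrt_pos.2 hM0
    have h1 : √((2 : ℝ) ^ m) = 2 * √(M : ℝ) := by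
      rw [h4M, show (4 : ℝ) * M = 2 ^ 2 * M by ring, Real.sqrt_mul (by norm_num),
        Real.sqrt_sq (by norm_num)]
    have h2 : ((2 * M - i : ℕ) : ℝ) = 2 * M - i := by
      rw [Nat.cast_sub hi.le]; push_cast; ring
    rw [depth, Pool.Agent.RMC53.KM, h1, h4M, h2, div_eq_div_iff (by positivity) hq0.ne']
    ring
  have hb := Pool.Agent.RMC53.bounds hM hM1 hi _ _ rfl rfl
  rw [← Pool.Agent.RMC53.Lm] at hb
  rw [hL, hK]
  exact ⟨hb.1, hb.2.1, Pool.Agent.RMC53.dev_lower hM hM1 hi hα,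
    Pool.Agent.RMC53.dev_upper hM hM1 hi⟩

end Pool.Agent.Results.MP_7db6b7_lc.UniformBounds
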